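import Pool.Agent.H5.OR.Targets3
import Pool.Agent.H86.OR.AT

/-!
# Row SF of ors_modules: the side function of an edge of a star of groups
-/

set_option autoImplicit false

open scoped Classical

namespace Pool.Agent.H20.ORS

open ORg ORg.H86AT

theorem gen {I : Type} {H B : I → Type} {A G : Type} [∀ i, Group (H i)] [∀ i, Group (B i)]
    [Group A] [Group G] {f : ∀ i, H i →* A} {g : ∀ i, H i →* B i} {a : A →* G}
    {b : ∀ i, B i →* G} (hst : IsSt f g a b) : a.range ⊔ ⨆ i, (b i).range = ⊤ := by
  set S : Subgroup G := a.range ⊔ ⨆ i, (b i).range with hS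
  have ha : ∀ x, a x ∈ S := fun x => (le_sup_left : a.range ≤ S) ⟨x, rfl⟩
  have hb : ∀ i x, b i x ∈ S := fun i x =>
    (le_sup_right : ⨆ i, (b i).range ≤ S) ((le_iSup (fun i => (b i).range) i) ⟨x, rfl⟩)
  obtain ⟨k, hk1, hk2⟩ := hst.lift S (a.codRestrict S ha)
    (fun i => (b i).codRestrict S (hb i)) (by
    intro i h
    apply Subtype.ext
    simpa using hst.comm i h)
  have hid := hst.uniq G (S.subtype.comp k) (MonoidHom.id G) (by
    intro x
    simp [hk1]) (by
    intro i x
    simp [hk2])
  rw [eq_top_iff]
  intro x _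
  have := DFunLike.congr_fun hid x
  simp only [MonoidHom.comp_apply, MonoidHom.id_apply] at this
  rw [← this]
  exact (k x).2

theorem pf_SF : T_SF := by
  intro I H B A G _ _ _ _ f g a b hst i
  set C : Subgroup G := (a.comp (f i)).range with hC
  let v : ∀ j, B j →* Equiv.Perm (G × Bool) := fun j =>
    if j = i then (MulAut.conj (theta C)).toMonoidHom.comp ((rho G).comp (b j))
    else (rho G).comp (b j)
  have hvi : v i = (MulAut.conj (theta C)).toMonoidHom.comp ((rho G).comp (b i)) := if_pos rfl
  have hvj : ∀ j, j ≠ i → v j = (rho G).comp (b j) := fun j hj => if_neg hj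
  obtain ⟨π, hπa, hπb⟩ := hst.lift (Equiv.Perm (G × Bool)) ((rho G).comp a) v (by
      intro j h
      by_cases hj : j = i
      · subst hj
        rw [hvi]
        apply Equiv.ext
        rintro ⟨x, s⟩
        have hc : b j (g j h) = a (f j h) := (hst.comm j h).symm
        have hmem : a (f j h) ∈ C := ⟨h, rfl⟩
        have hiff : x * (a (f j h))⁻¹ ∈ C ↔ x ∈ C := by
          constructor
          · intro hx
            have := C.mul_mem hx hmem
            simpa using this
          · intro hx
            exact C.mul_mem hx (C.inv_mem hmem)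
        simp only [MonoidHom.comp_apply, MulEquiv.coe_toMonoidHom, MulAut.conj_apply,
          Equiv.Perm.mul_apply, rho_apply, theta_apply, theta_inv_apply, hc, hiff]
        simp
      · rw [hvj j hj, MonoidHom.comp_apply, MonoidHom.comp_apply, hst.comm j h])
  have hfst : ∀ y : G, ∀ p : G × Bool, (π y p).1 = p.1 * y⁻¹ := by
    let S : Subgroup G :=
      { carrier := {y | ∀ p : G × Bool, (π y p).1 = p.1 * y⁻¹}
        one_mem' := by
          intro p
          simp
        mul_mem' := by
          intro y z hy hz p
          rw [map_mul, Equiv.Perm.mul_apply, hy, hz, mul_inv_rev, mul_assoc]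
        inv_mem' := by
          intro y hy p
          have h1 := hy (π y⁻¹ p)
          have h2 : π y (π y⁻¹ p) = p := by
            rw [← Equiv.Perm.mul_apply, ← map_mul, mul_inv_cancel, map_one,
              Equiv.Perm.one_apply]
          rw [h2] at h1
          rw [h1]
          simp }
    have hS : S = ⊤ := by
      rw [eq_top_iff, ← gen hst, sup_le_iff, iSup_le_iff]
      constructor
      · rintro _ ⟨x, rfl⟩
        intro p
        rw [hπa]
        rfl
      · rintro j _ ⟨x, rfl⟩
        intro p
        rw [hπb]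
        by_cases hj : j = i
        · subst hj
          rw [hvi]
          rfl
        · rw [hvj j hj]
          rfl
    intro y
    have : y ∈ S := by rw [hS]; exact Subgroup.mem_top y
    exact this
  refine ⟨fun x => (π x⁻¹ (1, true)).2, ?_, ?_, ?_, ?_⟩
  · simp
  · intro x y
    change (π (x * a y)⁻¹ (1, true)).2 = _
    rw [mul_inv_rev, map_mul, Equiv.Perm.mul_apply, ← map_inv, hπa]
    rfl
  · intro j x y hj
    change (π (x * b j y)⁻¹ (1, true)).2 = _
    rw [mul_inv_rev, map_mul, Equiv.Perm.mul_apply, ← map_inv, hπb, hvj j hj]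
    rfl
  · intro x y
    change xor ((π (x * b i y)⁻¹ (1, true)).2) _ = xor ((π x⁻¹ (1, true)).2) _
    have h1 : (π x⁻¹ (1, true)).1 = x := by
      rw [hfst]
      simp
    rw [mul_inv_rev, map_mul, Equiv.Perm.mul_apply, ← map_inv, hπb, hvi]
    generalize π x⁻¹ (1, true) = q at h1 ⊢
    obtain ⟨q1, q2⟩ := q
    simp only at h1
    subst h1
    change xor (theta C (rho G (b i y⁻¹) ((theta C)⁻¹ (q1, q2)))).2 _ = _
    rw [theta_inv_apply, rho_apply, theta_apply, map_inv, inv_inv]
    simp only
    generalize decide (q1 * b i y ∈ C) = e1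
    generalize decide (q1 ∈ C) = e2
    cases e1 <;> cases e2 <;> cases q2 <;> rfl

end Pool.Agent.H20.ORS
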